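import Pool.Agent.X7.DistinctSum.Main

open Finset
open scoped BigOperators

namespace Pool.Agent.Results.MP_3eac50_co.BalancedBound

/-- Let `k ≥ 1`, let `n, r` be natural numbers, and let `x i j` (for `i < n`, `j < k`) be variables
from a set of `r` variables such that for every `i` the variables `x i 0, ..., x i (k-1)` are
pairwise distinct. Then every coefficient of the polynomial `∏ i, (x i 0 + ... + x i (k-1))` is at
most `n! / (((q+1)!)^s * (q!)^(k-s))`, where `n = q k + s` with `0 ≤ s < k`. -/
theorem result (k : ℕ) (hk : 1 ≤ k) (n r : ℕ) (x : Fin n → Fin k → Fin r)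
    (hx : ∀ i, Function.Injective (x i)) (α : Fin r →₀ ℕ) :
    ((MvPolynomial.coeff α
        (∏ i : Fin n, ∑ j : Fin k, (MvPolynomial.X (x i j) : MvPolynomial (Fin r) ℤ)) : ℤ) : ℚ) ≤
      (n.factorial : ℚ) /
        (((n / k + 1).factorial : ℚ) ^ (n % k) * ((n / k).factorial : ℚ) ^ (k - n % k)) := by
  classical
  have hcoef : MvPolynomial.coeff α
      (∏ i : Fin n, ∑ j : Fin k, (MvPolynomial.X (x i j) : MvPolynomial (Fin r) ℤ)) =
      ((Pool.Agent.X7.DistinctSum.Cnt (fun i => univ.image (x i)) (fun j => α j)).card : ℤ) := by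
    have h1 : ∀ i : Fin n, ∑ j : Fin k, (MvPolynomial.X (x i j) : MvPolynomial (Fin r) ℤ) =
        ∑ c ∈ univ.image (x i), MvPolynomial.X c := by
      intro i
      rw [Finset.sum_image (fun a _ b _ hab => hx i hab)]
    rw [Finset.prod_congr rfl (fun i _ => h1 i), Finset.prod_univ_sum, MvPolynomial.coeff_sum]
    have h2 : ∀ p : Fin n → Fin r, MvPolynomial.coeff α
        (∏ i : Fin n, (MvPolynomial.X (p i) : MvPolynomial (Fin r) ℤ)) =
        if (∀ j, (univ.filter (fun i => p i = j)).card = α j) then 1 else 0 := by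
      intro p
      have h3 : (∏ i : Fin n, (MvPolynomial.X (p i) : MvPolynomial (Fin r) ℤ)) =
          MvPolynomial.monomial (∑ i : Fin n, Finsupp.single (p i) 1) 1 := by
        rw [MvPolynomial.monomial_sum_one]
        rfl
      rw [h3, MvPolynomial.coeff_monomial]
      congr 1
      rw [eq_iff_iff, Finsupp.ext_iff]
      apply forall_congr'
      intro j
      rw [Finsupp.finsetSum_apply, Finset.card_filter]
      simp only [Finsupp.single_apply]
    rw [Finset.sum_congr rfl (fun p _ => h2 p), ← Finset.sum_filter, Finset.sum_const, nsmul_eq_mul,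
      mul_one]
    congr 2
    ext p
    simp only [Finset.mem_filter, Fintype.mem_piFinset]
    rw [Pool.Agent.X7.DistinctSum.mem_Cnt]
  have hcard : ∀ i, ((univ.image (x i)) : Finset (Fin r)).card = k := by
    intro i
    rw [Finset.card_image_of_injective _ (hx i), Finset.card_univ, Fintype.card_fin]
  have hmain := Pool.Agent.X7.DistinctSum.main k hk n (fun i => univ.image (x i)) hcard
    (fun j => α j)
  have hM := Pool.Agent.X7.DistinctSum.Mr_eq k hk n
  rw [hcoef]
  have hpos : (0 : ℚ) < ((n / k + 1).factorial : ℚ) ^ (n % k) *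
      ((n / k).factorial : ℚ) ^ (k - n % k) := by positivity
  rw [le_div_iff₀ hpos]
  have hposR : (0 : ℝ) < ((n / k + 1).factorial : ℝ) ^ (n % k) *
      ((n / k).factorial : ℝ) ^ (k - n % k) := by positivity
  have h5 : ((Pool.Agent.X7.DistinctSum.Cnt (fun i => univ.image (x i)) (fun j => α j)).card : ℝ) *
      (((n / k + 1).factorial : ℝ) ^ (n % k) * ((n / k).factorial : ℝ) ^ (k - n % k)) ≤
      (n.factorial : ℝ) := by
    rw [← hM]
    exact mul_le_mul_of_nonneg_right hmain hposR.le
  exact_mod_cast h5

end Pool.Agent.Results.MP_3eac50_co.BalancedBound
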